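import Pool.Agent.R30B.Stmts

/-!
# Squad R30B, row ZCA: case A
-/

set_option autoImplicit false

namespace Pool.Agent.R30B.H15

open Pool.Agent.R30B

theorem dia_shift {D : ℕ → ℕ → Bool} (h : Dia D) (o : ℕ) : Dia (fun t k => D (o + t) k) :=
  fun t k => h (o + t) k

theorem dia_col {D : ℕ → ℕ → Bool} (h : Dia D) : Dia (fun t k => D t (k + 1)) :=
  fun t k => h t (k + 1)

theorem mono_run {D : ℕ → ℕ → Bool} (h : Dia D) {o s : ℕ} (h0 : ∀ t < s, D (o + t) 0 = false)
    {u : ℕ} (hu : D (o + u) 1 = true) : ∀ v, u ≤ v → v ≤ s → D (o + v) 1 = true := by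
  intro v huv
  induction v, huv using Nat.le_induction with
  | base => exact fun _ => hu
  | succ v hv ih =>
    intro hs
    have h1 := h (o + v) 0
    rw [h0 v (by omega), zero_add, ih (by omega), Bool.true_or] at h1
    exact h1

theorem step (pat : PatStmt) (wht : WhtStmt) {D : ℕ → ℕ → Bool} (h : Dia D) {r s o : ℕ}
    (hs : 40 * (r + 2) ≤ s) (h0 : ∀ t < s, D (o + t) 0 = false)
    (h1 : ∀ t < s, D (o + (s + r) + t) 0 = false) (hb : D (o + (s - 9 * (r + 2))) 1 = true) :
    ∀ v, 2 * r + 5 ≤ v → v ≤ s → D (o + (s + r) + v) 1 = true := by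
  have hm : ∀ v, s - 9 * (r + 2) ≤ v → v ≤ s → D (o + v) 1 = true := mono_run h h0 hb
  have hp := (pat _ (dia_shift (dia_col h) (o + (s - 9 * (r + 2)))) (9 * (r + 2) + 1) (r + 2)
    (by omega) (by omega) (fun t ht => by
      have := hm (s - 9 * (r + 2) + t) (by omega) (by omega)
      rw [← add_assoc] at this
      exact this)).2 (9 * (r + 2) + r) (by omega) (by omega)
  have hp' : D (o + (s + r)) (2 * r + 5) = true := by
    have e1 : o + (s - 9 * (r + 2)) + (9 * (r + 2) + r) = o + (s + r) := by omega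
    have e2 : 2 * (r + 2) + 1 = 2 * r + 5 := by omega
    have hp2 : D (o + (s - 9 * (r + 2)) + (9 * (r + 2) + r)) (2 * (r + 2) + 1) = true := hp
    rw [e1, e2] at hp2
    exact hp2
  have hex : ∃ t ≤ 2 * r + 5, D (o + (s + r) + t) 1 = true := by
    by_contra hne
    have hw := wht _ (dia_shift h (o + (s + r))) (2 * r + 5) (fun t ht => h1 t (by omega))
      (fun t ht => by
        by_contra hc
        exact hne ⟨t, ht, by simpa using hc⟩) 0 (2 * r + 5) (by omega) (by omega)
    have hw2 : D (o + (s + r) + 0) (2 * r + 5) = false := hw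
    rw [add_zero, hp'] at hw2
    exact absurd hw2 (by decide)
  obtain ⟨t, ht, hD⟩ := hex
  exact fun v hv hvs => mono_run h h1 hD v (ht.trans hv) hvs

theorem zca (pat : PatStmt) (ag2 : Ag2Stmt) (wht : WhtStmt) : ZcaStmt := by
  intro r s hr hs D h hper h0 hex
  obtain ⟨c, hc⟩ := hex
  have hper2 : ∀ c t : ℕ, D (c * (s + r) + t) 0 = D t 0 := by
    intro c t
    induction c with
    | zero => rw [zero_mul, zero_add]
    | succ c ih =>
      have e : (c + 1) * (s + r) + t = (c * (s + r) + t) + (s + r) := by ring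
      rw [e, hper, ih]
  have h00 : ∀ c t : ℕ, t < s → D (c * (s + r) + t) 0 = false := fun c t ht => by
    rw [hper2, h0 t ht]
  have e1 : ∀ c : ℕ, (c + 1) * (s + r) = c * (s + r) + (s + r) := fun c => by ring
  have key : ∀ c' : ℕ, c ≤ c' → D (c' * (s + r) + (s - 9 * (r + 2))) 1 = true ∧
      ∀ v, 2 * r + 5 ≤ v → v ≤ s → D ((c' + 1) * (s + r) + v) 1 = true := by
    intro c' hc'
    induction c', hc' using Nat.le_induction with
    | base =>
      refine ⟨hc, ?_⟩
      rw [e1]
      exact step pat wht h hs (h00 c) (fun t ht => by rw [← e1]; exact h00 _ t ht) hc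
    | succ c' hc' ih =>
      have h2 := ih.2 (s - 9 * (r + 2)) (by omega) (by omega)
      refine ⟨h2, ?_⟩
      rw [e1 (c' + 1)]
      exact step pat wht h hs (h00 (c' + 1)) (fun t ht => by rw [← e1]; exact h00 _ t ht) h2
  have key2 : ∀ c' : ℕ, c < c' → ∀ v, 2 * r + 5 ≤ v → v ≤ s → D (c' * (s + r) + v) 1 = true := by
    intro c' hc' v hv hvs
    obtain ⟨c'', rfl⟩ := Nat.exists_eq_add_of_lt hc'
    exact (key (c + c'') (by omega)).2 v hv hvs
  refine ⟨(c + 1) * (s + r) + (2 * r + 5), fun t ht => ?_⟩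
  have hpos : 0 < s + r := by omega
  -- the period which contains `t`
  obtain ⟨c', u, hu, hcu, hcc⟩ : ∃ c' u : ℕ, u < s + r ∧ t = c' * (s + r) + (2 * r + 5) + u ∧
      c < c' := by
    refine ⟨(t - (2 * r + 5)) / (s + r), (t - (2 * r + 5)) % (s + r), Nat.mod_lt _ hpos, ?_, ?_⟩
    · have := Nat.div_add_mod' (t - (2 * r + 5)) (s + r)
      omega
    · have : c + 1 ≤ (t - (2 * r + 5)) / (s + r) := by
        rw [Nat.le_div_iff_mul_le hpos]
        omega
      omega
  obtain ⟨n, hn⟩ : ∃ n, n = s - 2 * r - 4 := ⟨_, rfl⟩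
  obtain ⟨j, hj⟩ : ∃ j, j = (n - 2) / 7 := ⟨_, rfl⟩
  have hag := ag2 _ _ (dia_shift h (c' * (s + r) + (2 * r + 5)))
    (dia_shift h ((c' + 1) * (s + r) + (2 * r + 5))) n j (by omega) (by omega)
    (fun t => by
      change D (c' * (s + r) + (2 * r + 5) + t) 0 = D ((c' + 1) * (s + r) + (2 * r + 5) + t) 0
      rw [add_assoc (c' * (s + r)), hper2, add_assoc ((c' + 1) * (s + r)), hper2])
    (fun t ht => by
      change D (c' * (s + r) + (2 * r + 5) + t) 1 = true
      rw [add_assoc (c' * (s + r))]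
      exact key2 c' hcc _ (by omega) (by omega))
    (fun t ht => by
      change D ((c' + 1) * (s + r) + (2 * r + 5) + t) 1 = true
      rw [add_assoc ((c' + 1) * (s + r))]
      exact key2 (c' + 1) (by omega) _ (by omega) (by omega))
    u (by omega)
  have hag' : D (c' * (s + r) + (2 * r + 5) + u) 1 =
    D ((c' + 1) * (s + r) + (2 * r + 5) + u) 1 := hag
  have e2 : t + (s + r) = (c' + 1) * (s + r) + (2 * r + 5) + u := by
    rw [hcu, e1]
    ring
  rw [e2, hcu]
  exact hag'.symm

end Pool.Agent.R30B.H15
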